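import Mathlib
import Pool.Agent.Lib.MP_29e9a5_co.Defs
import Pool.Agent.Lib.MP_29e9a5_co.Combine

set_option autoImplicit false

namespace Pool.Agent.Results.MP_29e9a5_co.CriticalSpeed

open Pool.Agent.Lib.MP_29e9a5_co

/-- The cop wins on the star with `k` edges at every speed `s > 2⌈k/2⌉ - 1`, whatever the edge
lengths; in particular, for every `k ≥ 4` the cop wins at the speed `2k - 3`, so that
`s*(S_k) = (2k-3)^+` fails for every `k ≥ 4` and all edge lengths. -/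
theorem result (k : ℕ) (hk : 3 ≤ k) (ℓ : Fin k → ℝ) (hℓ : ∀ i, 0 < ℓ i) :
    (∀ s : ℝ, 2 * (((k + 1) / 2 : ℕ) : ℝ) - 1 < s → CopWins ℓ s) ∧
      (4 ≤ k → CopWins ℓ (2 * (k : ℝ) - 3)) := by
  refine ⟨fun s hs => copWins_of_lt (by omega) hℓ hs, fun hk4 => ?_⟩
  refine copWins_of_lt (by omega) hℓ ?_
  have h1 : 2 * ((k + 1) / 2) ≤ k + 1 := by omega
  have h2 : 2 * (((k + 1) / 2 : ℕ) : ℝ) ≤ (k : ℝ) + 1 := by exact_mod_cast h1
  have h3 : (4 : ℝ) ≤ k := by exact_mod_cast hk4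
  linarith

end Pool.Agent.Results.MP_29e9a5_co.CriticalSpeed
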